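import Pool.Agent.N805.VP.Base

/-! # From cells to boxes of differences: the region and its integral

Project VP (helper805), part DIF (helper704).
-/

set_option autoImplicit false

open MeasureTheory Set Filter Topology
open Pool.Agent.N805.VP

namespace Pool.Agent.N704.VP

/-- the region `q 0 ∈ [0, 1)`, differences in a box -/
def Rg {k : ℕ} (a b : Fin k → ℝ) : Set (Fin (k + 1) → ℝ) :=
  {q | q 0 ∈ Ico (0 : ℝ) 1 ∧ ∀ i : Fin k, q i.succ - q 0 ∈ Icc (a i) (b i)}

lemma Rg_meas {k : ℕ} (a b : Fin k → ℝ) : MeasurableSet (Rg a b) := by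
  unfold Rg
  refine MeasurableSet.inter ?_ ?_
  · exact (measurable_pi_apply 0) measurableSet_Ico
  · have : {q : Fin (k + 1) → ℝ | ∀ i : Fin k, q i.succ - q 0 ∈ Icc (a i) (b i)} =
        ⋂ i : Fin k, {q : Fin (k + 1) → ℝ | q i.succ - q 0 ∈ Icc (a i) (b i)} := by
      ext q; simp
    show MeasurableSet {q : Fin (k + 1) → ℝ | ∀ i : Fin k, q i.succ - q 0 ∈ Icc (a i) (b i)}
    rw [this]
    exact MeasurableSet.iInter fun i =>
      ((measurable_pi_apply i.succ).sub (measurable_pi_apply 0)) measurableSet_Icc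

lemma Rg_bdd {k : ℕ} (a b : Fin k → ℝ) : ∃ c : ℝ, Rg a b ⊆ Icc (fun _ => -c) (fun _ => c) := by
  refine ⟨1 + (∑ i, |a i|) + ∑ i, |b i|, fun q hq => ?_⟩
  have h0 := hq.1
  have s1 : 0 ≤ ∑ i, |a i| := Finset.sum_nonneg fun i _ => abs_nonneg _
  have s2 : 0 ≤ ∑ i, |b i| := Finset.sum_nonneg fun i _ => abs_nonneg _
  have key : ∀ i : Fin (k + 1), -(1 + (∑ i, |a i|) + ∑ i, |b i|) ≤ q i ∧
      q i ≤ 1 + (∑ i, |a i|) + ∑ i, |b i| := by
    intro i
    refine Fin.cases ?_ (fun i => ?_) i
    · constructor <;> linarith [h0.1, h0.2]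
    · have h1 := hq.2 i
      have h2 : |a i| ≤ ∑ i, |a i| :=
        Finset.single_le_sum (f := fun i => |a i|) (fun _ _ => abs_nonneg _) (Finset.mem_univ i)
      have h3 : |b i| ≤ ∑ i, |b i| :=
        Finset.single_le_sum (f := fun i => |b i|) (fun _ _ => abs_nonneg _) (Finset.mem_univ i)
      have h4 := neg_abs_le (a i)
      have h5 := le_abs_self (b i)
      constructor <;> linarith [h0.1, h0.2, h1.1, h1.2]
  exact ⟨fun i => (key i).1, fun i => (key i).2⟩

lemma Rg_int {k : ℕ} (a b : Fin k → ℝ) : IntegrableOn (fun q => D q) (Rg a b) := by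
  obtain ⟨c, hc⟩ := Rg_bdd a b
  exact ((D_cont (k := k + 1)).continuousOn.integrableOn_compact isCompact_Icc).mono_set hc

lemma D_cons {k : ℕ} (s : ℝ) (v : Fin k → ℝ) :
    D (Fin.cons s v : Fin (k + 1) → ℝ) = D (Fin.cons 0 (v - fun _ => s) : Fin (k + 1) → ℝ) := by
  rw [← D_shift (Fin.cons 0 (v - fun _ => s) : Fin (k + 1) → ℝ) s]
  congr 1
  funext i
  refine Fin.cases ?_ (fun i => ?_) i
  · simp
  · simp

/-- the integral over the region -/
theorem HR {k : ℕ} (a b : Fin k → ℝ) : ∫ q in Rg a b, D q = H a b := by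
  set e := MeasurableEquiv.piFinSuccAbove (fun _ : Fin (k + 1) => ℝ) 0 with he
  have hmp : MeasurePreserving e volume volume :=
    volume_preserving_piFinSuccAbove (fun _ : Fin (k + 1) => ℝ) 0
  set F : (Fin (k + 1) → ℝ) → ℝ := (Rg a b).indicator fun q => D q with hF
  have hFint : Integrable F := (integrable_indicator_iff (Rg_meas a b)).2 (Rg_int a b)
  rw [← integral_indicator (Rg_meas a b)]
  have e1 : ∫ q, F q = ∫ p, F (e.symm p) := (hmp.symm.integral_comp' F).symm
  have hint : Integrable (fun p => F (e.symm p)) (volume.prod volume) :=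
    (hmp.symm.integrable_comp_emb e.symm.measurableEmbedding).2 hFint
  have e2 : ∫ p, F (e.symm p) = ∫ s : ℝ, ∫ v : Fin k → ℝ, F (e.symm (s, v)) :=
    integral_prod (fun p => F (e.symm p)) hint
  show ∫ q, F q = H a b
  rw [e1, e2]
  have hsym : ∀ (s : ℝ) (v : Fin k → ℝ), e.symm (s, v) = (Fin.cons s v : Fin (k + 1) → ℝ) := by
    intro s v
    rw [he]
    funext i
    simp [MeasurableEquiv.piFinSuccAbove, Fin.insertNthEquiv]
  have inner : ∀ s : ℝ, ∫ v : Fin k → ℝ, F (e.symm (s, v)) =
      (Ico (0 : ℝ) 1).indicator (fun _ => H a b) s := by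
    intro s
    by_cases hs : s ∈ Ico (0 : ℝ) 1
    · rw [indicator_of_mem hs]
      have e3 : ∀ v : Fin k → ℝ, F (e.symm (s, v)) =
          (Icc a b).indicator (fun u => D (Fin.cons 0 u : Fin (k + 1) → ℝ)) (v - fun _ => s) := by
        intro v
        rw [hsym, hF]
        by_cases hv : (v - fun _ => s) ∈ Icc a b
        · rw [indicator_of_mem hv, indicator_of_mem, D_cons]
          refine ⟨by simpa using hs, fun i => ?_⟩
          have h1 := hv.1 i
          have h2 := hv.2 i
          simp only [Pi.sub_apply] at h1 h2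
          simp only [Fin.cons_succ, Fin.cons_zero]
          exact ⟨h1, h2⟩
        · rw [indicator_of_notMem hv, indicator_of_notMem]
          intro hmem
          apply hv
          have h1 := hmem.2
          simp only [Fin.cons_succ, Fin.cons_zero] at h1
          exact ⟨fun i => (h1 i).1, fun i => (h1 i).2⟩
      simp_rw [e3]
      rw [integral_sub_right_eq_self (fun v : Fin k → ℝ =>
        (Icc a b).indicator (fun u => D (Fin.cons 0 u : Fin (k + 1) → ℝ)) v) (fun _ => s),
        integral_indicator measurableSet_Icc]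
      rfl
    · rw [indicator_of_notMem hs]
      have e3 : ∀ v : Fin k → ℝ, F (e.symm (s, v)) = 0 := by
        intro v
        rw [hsym, hF, indicator_of_notMem]
        intro hmem
        apply hs
        have := hmem.1
        simpa using this
      simp_rw [e3]
      simp
  simp_rw [inner]
  rw [integral_indicator measurableSet_Ico, setIntegral_const]
  simp

end Pool.Agent.N704.VP
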