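import Pool.Agent.N704.VP.DifA

/-! # From cells to boxes of differences: counting

Project VP (helper805), part DIF (helper704).
-/

set_option autoImplicit false

open MeasureTheory Set Filter Topology
open Pool.Agent.N805.VP

namespace Pool.Agent.N704.VP

open scoped Classical in
/-- indices of cells with differences in a box -/
noncomputable def Fs {k : ℕ} (r B : ℕ) (α β : Fin k → ℝ) : Finset (Fin (k + 1) → ℤ) :=
  (Fintype.piFinset fun _ : Fin (k + 1) => Finset.Icc (-((B * r : ℕ) : ℤ)) ((B * r : ℕ) : ℤ)).filter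
    fun f => 0 ≤ f 0 ∧ f 0 < r ∧ ∀ i : Fin k, α i * r ≤ (f i.succ : ℝ) - f 0 ∧
      (f i.succ : ℝ) - f 0 ≤ β i * r

/-- the indices of the cells containing the point -/
noncomputable def fl {k : ℕ} (r : ℕ) (q : Fin k → ℝ) : Fin k → ℤ := fun i => ⌊q i * r⌋

lemma mem_cell {r : ℕ} (hr : 0 < r) (y : ℝ) (a : ℤ) : y ∈ cell (1 / r) a ↔ ⌊y * r⌋ = a := by
  have hr' : (0 : ℝ) < r := Nat.cast_pos.2 hr
  unfold cell
  rw [Int.floor_eq_iff, mem_Ico, mul_one_div, mul_one_div, div_le_iff₀ hr', lt_div_iff₀ hr']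

lemma mem_cells {k : ℕ} {r : ℕ} (hr : 0 < r) (q : Fin k → ℝ) (f : Fin k → ℤ) :
    (∀ i, q i ∈ cell (1 / r) (f i)) ↔ fl r q = f := by
  simp_rw [mem_cell hr]
  exact ⟨fun h => funext h, fun h i => congrFun h i⟩

lemma mem_Fs {k : ℕ} {r B : ℕ} {α β : Fin k → ℝ} {f : Fin (k + 1) → ℤ} : f ∈ Fs r B α β ↔
    (∀ i, |f i| ≤ ((B * r : ℕ) : ℤ)) ∧ 0 ≤ f 0 ∧ f 0 < r ∧ ∀ i : Fin k,
      α i * r ≤ (f i.succ : ℝ) - f 0 ∧ (f i.succ : ℝ) - f 0 ≤ β i * r := by
  classical
  unfold Fs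
  rw [Finset.mem_filter, Fintype.mem_piFinset]
  simp_rw [Finset.mem_Icc, abs_le]

lemma Fs_card {k : ℕ} {r B : ℕ} (hr : 0 < r) {α β : Fin k → ℝ} :
    ((Fs r B α β).card : ℝ) ≤ (2 * B + 1) ^ (k + 1) * (r : ℝ) ^ (k + 1) := by
  classical
  have h1 : (Fs r B α β).card ≤ (2 * (B * r) + 1) ^ (k + 1) := by
    unfold Fs
    refine (Finset.card_filter_le _ _).trans (le_of_eq ?_)
    rw [Fintype.card_piFinset, Finset.prod_const, Finset.card_univ, Fintype.card_fin, Int.card_Icc]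
    congr 1
    omega
  have h2 : ((Fs r B α β).card : ℝ) ≤ (2 * (B * r) + 1) ^ (k + 1) := by exact_mod_cast h1
  refine h2.trans ?_
  rw [← mul_pow]
  refine pow_le_pow_left₀ (by positivity) ?_ _
  have hr' : (1 : ℝ) ≤ r := by exact_mod_cast hr
  nlinarith

/-- from the region to the indices -/
lemma K1 {k : ℕ} {r B : ℕ} (hr : 0 < r) {α β : Fin k → ℝ} (hB : ∀ i, 1 + |α i| ≤ B)
    (hB' : ∀ i, 1 + |β i| ≤ B) (hB1 : 1 ≤ B) {q : Fin (k + 1) → ℝ}
    (hq : q ∈ Rg (fun i => α i + 1 / r) (fun i => β i - 1 / r)) : fl r q ∈ Fs r B α β := by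
  have hr' : (0 : ℝ) < r := Nat.cast_pos.2 hr
  obtain ⟨h0, h1⟩ := hq
  have f0 := Int.floor_le (q 0 * r)
  have f1 := Int.lt_floor_add_one (q 0 * r)
  have g0 : 0 ≤ fl r q 0 := by
    unfold fl
    exact Int.floor_nonneg.2 (mul_nonneg h0.1 hr'.le)
  have g1 : fl r q 0 < r := by
    unfold fl
    rw [Int.floor_lt]
    have := h0.2
    push_cast
    nlinarith
  have hd : ∀ i : Fin k, α i * r ≤ (fl r q i.succ : ℝ) - fl r q 0 ∧
      (fl r q i.succ : ℝ) - fl r q 0 ≤ β i * r := by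
    intro i
    have k0 := Int.floor_le (q i.succ * r)
    have k1 := Int.lt_floor_add_one (q i.succ * r)
    have h2 := h1 i
    have e1 : (α i + 1 / r) * r = α i * r + 1 := by field_simp
    have e2 : (β i - 1 / r) * r = β i * r - 1 := by field_simp
    have h3 := mul_le_mul_of_nonneg_right h2.1 hr'.le
    have h4 := mul_le_mul_of_nonneg_right h2.2 hr'.le
    rw [e1, sub_mul] at h3
    rw [e2, sub_mul] at h4
    show α i * r ≤ (⌊q i.succ * r⌋ : ℝ) - ⌊q 0 * r⌋ ∧ (⌊q i.succ * r⌋ : ℝ) - ⌊q 0 * r⌋ ≤ β i * r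
    constructor <;> linarith
  rw [mem_Fs]
  refine ⟨?_, g0, g1, hd⟩
  have g0' : (0 : ℝ) ≤ fl r q 0 := by exact_mod_cast g0
  have g1' : (fl r q 0 : ℝ) < r := by exact_mod_cast g1
  have hB1' : (1 : ℝ) ≤ B := by exact_mod_cast hB1
  intro i
  have key : |(fl r q i : ℝ)| ≤ (B : ℝ) * r := by
    refine Fin.cases ?_ (fun i => ?_) i
    · rw [abs_of_nonneg g0']
      nlinarith
    · obtain ⟨k1, k2⟩ := hd i
      have k3 := hB i
      have k4 := hB' i
      have k5 := neg_abs_le (α i)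
      have k6 := le_abs_self (β i)
      have k7 : -(B * r : ℝ) ≤ α i * r := by nlinarith
      have k8 : (1 + β i) * r ≤ B * r := by nlinarith
      rw [abs_le]
      constructor <;> nlinarith
  exact_mod_cast key

/-- from the indices to the region -/
lemma K2 {k : ℕ} {r B : ℕ} (hr : 0 < r) {α β : Fin k → ℝ} {q : Fin (k + 1) → ℝ}
    (hq : fl r q ∈ Fs r B α β) : q ∈ Rg (fun i => α i - 1 / r) (fun i => β i + 1 / r) := by
  have hr' : (0 : ℝ) < r := Nat.cast_pos.2 hr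
  rw [mem_Fs] at hq
  obtain ⟨-, h0, h1, h2⟩ := hq
  have f0 := Int.floor_le (q 0 * r)
  have f1 := Int.lt_floor_add_one (q 0 * r)
  have h0' : (0 : ℝ) ≤ (⌊q 0 * r⌋ : ℤ) := by exact_mod_cast h0
  have h1' : ((⌊q 0 * r⌋ : ℤ) : ℝ) + 1 ≤ r := by
    have : ⌊q 0 * r⌋ + 1 ≤ r := h1
    exact_mod_cast this
  refine ⟨⟨?_, ?_⟩, fun i => ?_⟩
  · have : 0 ≤ q 0 * r := h0'.trans f0
    exact nonneg_of_mul_nonneg_left this hr'
  · have : q 0 * r < 1 * r := by linarith
    exact lt_of_mul_lt_mul_right this hr'.le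
  · have k0 := Int.floor_le (q i.succ * r)
    have k1 := Int.lt_floor_add_one (q i.succ * r)
    obtain ⟨k2, k3⟩ := h2 i
    have k2' : α i * r ≤ (⌊q i.succ * r⌋ : ℝ) - ⌊q 0 * r⌋ := k2
    have k3' : (⌊q i.succ * r⌋ : ℝ) - ⌊q 0 * r⌋ ≤ β i * r := k3
    have e1 : (α i - 1 / r) * r = α i * r - 1 := by field_simp
    have e2 : (β i + 1 / r) * r = β i * r + 1 := by field_simp
    constructor
    · refine le_of_mul_le_mul_right ?_ hr'
      rw [e1, sub_mul]
      linarith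
    · refine le_of_mul_le_mul_right ?_ hr'
      rw [e2, sub_mul]
      linarith

/-! ## The integrals -/

lemma sum_G {k : ℕ} {r B : ℕ} (hr : 0 < r) (α β : Fin k → ℝ) :
    ∑ f ∈ Fs r B α β, G (fun i => cell (1 / (r : ℝ)) (f i)) =
      ∫ q in {q : Fin (k + 1) → ℝ | fl r q ∈ Fs r B α β}, D q := by
  have hr' : (0 : ℝ) < 1 / r := by positivity
  have e : {q : Fin (k + 1) → ℝ | fl r q ∈ Fs r B α β} =
      ⋃ f ∈ Fs r B α β, Set.pi univ (fun i => cell (1 / (r : ℝ)) (f i)) := by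
    ext q
    simp only [mem_ofPred_eq, mem_iUnion, Set.mem_pi, mem_univ, true_implies, exists_prop]
    constructor
    · intro h
      exact ⟨_, h, (mem_cells hr q _).2 rfl⟩
    · rintro ⟨f, hf, h⟩
      rw [(mem_cells hr q f).1 h]
      exact hf
  rw [e, integral_biUnion_finset]
  · rfl
  · exact fun f _ => MeasurableSet.univ_pi fun i => cell_meas _ _
  · intro f _ g _ hfg
    rw [Function.onFun, Set.disjoint_left]
    intro q h1 h2
    apply hfg
    rw [← (mem_cells hr q f).1 fun i => h1 i (mem_univ i),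
      ← (mem_cells hr q g).1 fun i => h2 i (mem_univ i)]
  · intro f _
    refine D_int ⟨(∑ i, |(f i : ℝ)| * (1 / r)) + 1 / r, fun i => cell_bdd hr' ?_⟩
    exact Finset.single_le_sum (f := fun i => |(f i : ℝ)| * (1 / (r : ℝ)))
      (fun _ _ => by positivity) (Finset.mem_univ i)

lemma L3 (hD : S_DET) {k : ℕ} {r B : ℕ} (hr : 0 < r) (α β : Fin k → ℝ) :
    ∑ f ∈ Fs r B α β, G (fun i => cell (1 / (r : ℝ)) (f i)) ≤
      H (fun i => α i - 1 / r) (fun i => β i + 1 / r) := by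
  rw [sum_G hr, ← HR]
  refine setIntegral_mono_set (Rg_int _ _) (ae_of_all _ fun q => (hD _ q).1) ?_
  exact (show {q : Fin (k + 1) → ℝ | fl r q ∈ Fs r B α β} ⊆ _ from
    fun q hq => K2 hr hq).eventuallyLE

lemma L4 (hD : S_DET) {k : ℕ} {r B : ℕ} (hr : 0 < r) {α β : Fin k → ℝ} (hB : ∀ i, 1 + |α i| ≤ B)
    (hB' : ∀ i, 1 + |β i| ≤ B) (hB1 : 1 ≤ B) : H (fun i => α i + 1 / r) (fun i => β i - 1 / r) ≤
      ∑ f ∈ Fs r B α β, G (fun i => cell (1 / (r : ℝ)) (f i)) := by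
  rw [sum_G hr, ← HR]
  refine setIntegral_mono_set ?_ (ae_of_all _ fun q => (hD _ q).1) ?_
  · exact (Rg_int _ _).mono_set (fun q hq => K2 hr hq)
  · exact (show Rg (fun i => α i + 1 / r) (fun i => β i - 1 / r) ⊆
      {q : Fin (k + 1) → ℝ | fl r q ∈ Fs r B α β} from
      fun q hq => K1 hr hB hB' hB1 hq).eventuallyLE

/-! ## The counts -/

variable (J : Finset ℕ) (x : ℕ → ℝ)

open scoped Classical in
/-- injective tuples -/
noncomputable def Ij (k : ℕ) : Finset (Fin k → ℕ) :=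
  (Fintype.piFinset fun _ : Fin k => J).filter Function.Injective

lemma bd_cells {k : ℕ} {r : ℕ} (hr : 0 < r) (f : Fin k → ℤ) :
    ∃ b : ℝ, ∀ i, cell (1 / (r : ℝ)) (f i) ⊆ Icc (-b) b := by
  have hr' : (0 : ℝ) < 1 / r := by positivity
  refine ⟨(∑ i, |(f i : ℝ)| * (1 / r)) + 1 / r, fun i => cell_bdd hr' ?_⟩
  exact Finset.single_le_sum (f := fun i => |(f i : ℝ)| * (1 / (r : ℝ)))
      (fun _ _ => by positivity) (Finset.mem_univ i)

lemma fin_tup {k : ℕ} (c : Fin (k + 1) → Set ℝ) (hb : ∃ b : ℝ, ∀ i, c i ⊆ Icc (-b) b)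
    (j : Fin (k + 1) → ℕ) : volume {s : ℝ | ∀ i, x (j i) - s ∈ c i} ≠ ⊤ := by
  obtain ⟨b, hb⟩ := hb
  have h0 : {s : ℝ | ∀ i, x (j i) - s ∈ c i} ⊆ Icc (x (j 0) - b) (x (j 0) + b) := by
    intro s hs
    have h1 := hb _ (hs 0)
    constructor <;> linarith [h1.1, h1.2]
  exact ((measure_mono h0).trans_lt (by simp)).ne

lemma sum_mom {k : ℕ} {r B : ℕ} (hr : 0 < r) (α β : Fin k → ℝ) :
    ∑ f ∈ Fs r B α β, mom J x (fun i => cell (1 / (r : ℝ)) (f i)) =
      ∑ j ∈ Ij J (k + 1), volume.real {t : ℝ | fl r (fun i => x (j i) - t) ∈ Fs r B α β} := by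
  have e1 : ∀ f ∈ Fs r B α β, mom J x (fun i => cell (1 / (r : ℝ)) (f i)) =
      ∑ j ∈ Ij J (k + 1), volume.real {s : ℝ | ∀ i, x (j i) - s ∈ cell (1 / (r : ℝ)) (f i)} :=
    fun f _ => mom_sum (Nat.le_add_left 1 k) (fun i => cell_meas _ _) (bd_cells hr f)
  rw [Finset.sum_congr rfl e1, Finset.sum_comm]
  refine Finset.sum_congr rfl fun j _ => ?_
  have e : {t : ℝ | fl r (fun i => x (j i) - t) ∈ Fs r B α β} =
      ⋃ f ∈ Fs r B α β, {s : ℝ | ∀ i, x (j i) - s ∈ cell (1 / (r : ℝ)) (f i)} := by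
    ext t
    simp only [mem_ofPred_eq, mem_iUnion, exists_prop]
    constructor
    · intro h
      exact ⟨_, h, (mem_cells hr (fun i => x (j i) - t) _).2 rfl⟩
    · rintro ⟨f, hf, h⟩
      rw [(mem_cells hr (fun i => x (j i) - t) f).1 h]
      exact hf
  rw [e]
  symm
  refine measureReal_biUnion_finset (μ := volume) (f := fun f : Fin (k + 1) → ℤ =>
    {s : ℝ | ∀ i, x (j i) - s ∈ cell (1 / (r : ℝ)) (f i)}) ?_ ?_ ?_
  · intro f _ g _ hfg
    rw [Function.onFun, Set.disjoint_left]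
    intro t h1 h2
    apply hfg
    rw [← (mem_cells hr (fun i => x (j i) - t) f).1 h1,
      ← (mem_cells hr (fun i => x (j i) - t) g).1 h2]
  · exact fun f _ => meas_tup (fun i => cell_meas _ _) j
  · exact fun f _ => fin_tup x _ (bd_cells hr f) j

lemma one_len (n : ℕ) : volume.real {t : ℝ | x n - t ∈ Ico (0 : ℝ) 1} = 1 := by
  have : {t : ℝ | x n - t ∈ Ico (0 : ℝ) 1} = Ioc (x n - 1) (x n) := by
    ext t
    simp only [mem_ofPred_eq, mem_Ico, mem_Ioc]
    constructor <;> rintro ⟨h1, h2⟩ <;> constructor <;> linarith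
  rw [this, Real.volume_real_Ioc_of_le (by linarith)]
  ring

lemma card_dif {k : ℕ} (a b : Fin k → ℝ) : ((dif J x a b).card : ℝ) =
    ∑ j ∈ Ij J (k + 1), volume.real {t : ℝ | (fun i => x (j i) - t) ∈ Rg a b} := by
  classical
  have e1 : ∀ j ∈ Ij J (k + 1), volume.real {t : ℝ | (fun i => x (j i) - t) ∈ Rg a b} =
      if (∀ i : Fin k, x (j i.succ) - x (j 0) ∈ Icc (a i) (b i)) then (1 : ℝ) else 0 := by
    intro j _
    split_ifs with h
    · rw [← one_len x (j 0)]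
      congr 1
      ext t
      constructor
      · intro ht
        exact ht.1
      · intro ht
        refine ⟨ht, fun i => ?_⟩
        have := h i
        simpa using this
    · have : {t : ℝ | (fun i => x (j i) - t) ∈ Rg a b} = ∅ := by
        ext t
        simp only [mem_ofPred_eq, mem_empty_iff_false, iff_false]
        intro ht
        apply h
        intro i
        have := ht.2 i
        simpa using this
      rw [this]
      simp
  rw [Finset.sum_congr rfl e1, Finset.sum_boole]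
  norm_cast
  refine Finset.card_bij' (fun p _ => (Fin.cons p.1 p.2 : Fin (k + 1) → ℕ))
    (fun j _ => (j 0, Fin.tail j)) ?_ ?_ ?_ ?_
  · intro p hp
    rw [mem_dif] at hp
    obtain ⟨⟨h1, h2⟩, h3, h4, h5⟩ := hp
    rw [Finset.mem_filter]
    unfold Ij
    rw [Finset.mem_filter, Fintype.mem_piFinset]
    refine ⟨⟨fun i => ?_, ?_⟩, fun i => ?_⟩
    · refine Fin.cases ?_ (fun i => ?_) i
      · simpa using h1
      · simpa using h2 i
    · rw [Fin.cons_injective_iff]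
      exact ⟨by rintro ⟨i, hi⟩; exact h4 i hi, h3⟩
    · simpa using h5 i
  · intro j hj
    rw [Finset.mem_filter] at hj
    obtain ⟨hj1, hj2⟩ := hj
    unfold Ij at hj1
    rw [Finset.mem_filter, Fintype.mem_piFinset] at hj1
    rw [mem_dif]
    refine ⟨⟨hj1.1 0, fun i => hj1.1 i.succ⟩, ?_, ?_, ?_⟩
    · intro i i' h
      exact Fin.succ_injective _ (hj1.2 h)
    · intro i h
      exact Fin.succ_ne_zero i (hj1.2 h)
    · intro i
      exact hj2 i
  · intro p _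
    simp
  · intro j _
    exact Fin.cons_self_tail j

lemma fin_Rg {k : ℕ} (a b : Fin k → ℝ) (j : Fin (k + 1) → ℕ) :
    volume {t : ℝ | (fun i => x (j i) - t) ∈ Rg a b} ≠ ⊤ := by
  have h0 : {t : ℝ | (fun i => x (j i) - t) ∈ Rg a b} ⊆ Icc (x (j 0) - 1) (x (j 0)) := by
    intro t ht
    have := ht.1
    simp only [mem_Ico] at this
    constructor <;> linarith [this.1, this.2]
  exact ((measure_mono h0).trans_lt (by simp)).ne

lemma L1 {k : ℕ} {r B : ℕ} (hr : 0 < r) {α β : Fin k → ℝ} (hB : ∀ i, 1 + |α i| ≤ B)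
    (hB' : ∀ i, 1 + |β i| ≤ B) (hB1 : 1 ≤ B) :
    ((dif J x (fun i => α i + 1 / r) (fun i => β i - 1 / r)).card : ℝ) ≤
      ∑ f ∈ Fs r B α β, mom J x (fun i => cell (1 / (r : ℝ)) (f i)) := by
  rw [sum_mom J x hr, card_dif]
  refine Finset.sum_le_sum fun j _ => ?_
  refine measureReal_mono (fun t ht => K1 hr hB hB' hB1 ht) ?_
  have hs : {t : ℝ | fl r (fun i => x (j i) - t) ∈ Fs r B α β} ⊆
      {t : ℝ | (fun i => x (j i) - t) ∈ Rg (fun i => α i - 1 / r) (fun i => β i + 1 / r)} :=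
    fun t ht => K2 hr ht
  exact ((measure_mono hs).trans_lt (fin_Rg x _ _ j).lt_top).ne

lemma L2 {k : ℕ} {r B : ℕ} (hr : 0 < r) {α β : Fin k → ℝ} :
    ∑ f ∈ Fs r B α β, mom J x (fun i => cell (1 / (r : ℝ)) (f i)) ≤
    ((dif J x (fun i => α i - 1 / r) (fun i => β i + 1 / r)).card : ℝ) := by
  rw [sum_mom J x hr, card_dif]
  refine Finset.sum_le_sum fun j _ => ?_
  exact measureReal_mono (fun t ht => K2 hr ht) (fin_Rg x _ _ j)

end Pool.Agent.N704.VP
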